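import Pool.Agent.TFB.Cross

/-! Families of cycles that cannot be reduced at a small loss: definitions. -/

namespace Pool.Agent.TFN

open List Pool.Agent.TF82 Pool.Agent.TFC Pool.Agent.TFB

universe u

set_option linter.unusedSectionVars false
set_option linter.unusedVariables false

variable {V : Type u} [DecidableEq V]

/-- every family with fewer cycles loses more than `Lo` vertices -/
def NoMerge (G : SimpleGraph V) (F : List (List V)) (Lo : ℕ) : Prop :=
  ∀ F' : List (List V), Fam G F' → F'.length + 1 ≤ F.length →
    F'.flatten.length + Lo < F.flatten.length

/-- number of neighbours of `x` in the list `c` -/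
def nb (G : SimpleGraph V) [DecidableRel G.Adj] (c : List V) (x : V) : ℕ :=
  (c.toFinset.filter (fun y => G.Adj x y)).card

/-- the vertices of `c` with at least `c'.length / e` neighbours in `c'` -/
def heavy (G : SimpleGraph V) [DecidableRel G.Adj] (e : ℕ) (c c' : List V) : Finset V :=
  c.toFinset.filter (fun x => c'.length ≤ e * nb G c' x)

end Pool.Agent.TFN
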