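import Pool.Agent.TFN.Defs
import Pool.Agent.TFB.Hub

/-! N2: a small gap between two marked vertices of a cycle. -/

namespace Pool.Agent.TFN

open List Pool.Agent.TF82 Pool.Agent.TFC Pool.Agent.TFB

universe u

set_option linter.unusedSectionVars false
set_option linter.unusedVariables false

variable {V : Type u} [DecidableEq V]

/-- opening a cycle at a smallest gap between elements of `Y` -/
theorem gap_exists {G : SimpleGraph V} {c : List V} (hc : CycL G c) (Y : Finset V)
    (hY : ∀ y ∈ Y, y ∈ c) (hne : Y.Nonempty) :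
    ∃ (R lost : List V) (y y' : V), c ~r (R ++ lost) ∧ Seg G R y y' ∧ y ∈ Y ∧ y' ∈ Y ∧
      Y.card * (lost.length + 1) ≤ c.length := by
  by_contra hcon
  push Not at hcon
  obtain ⟨w0, hw0⟩ := hne
  have hk : 0 < Y.card := Finset.card_pos.2 ⟨w0, hw0⟩
  obtain ⟨r, hr⟩ := rot_cons (hY w0 hw0)
  obtain ⟨g, hg⟩ : ∃ g, g = c.length / Y.card := ⟨_, rfl⟩
  have key : ∀ (R lost : List V) (w u : V), c ~r (R ++ lost) → R.head? = some w →
      R.getLast? = some u → w ∈ Y → u ∈ Y → g ≤ lost.length := by
    intro R lost w u h1 h2 h3 h4 h5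
    have hcyc := hc.of_isRotated h1
    have hlt := hcon R lost w u h1 ⟨(List.isChain_append.1 hcyc.2.2.1).1, h2, h3⟩ h4 h5
    have : g < lost.length + 1 := by
      rw [hg, Nat.div_lt_iff_lt_mul hk, Nat.mul_comm]
      exact hlt
    omega
  have hmain := filter_gap Y g (w0 :: r)
    (by
      intro A u lost w B hl hu hw _
      refine key ((w :: B) ++ (A ++ [u])) lost w u ?_ (by simp)
        (by rw [List.getLast?_append, List.getLast?_append]; simp) hw hu
      refine hr.trans ?_
      rw [hl]
      have e1 : A ++ u :: (lost ++ w :: B) = (A ++ [u] ++ lost) ++ (w :: B) := by simp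
      have e2 : (w :: B) ++ (A ++ [u]) ++ lost = (w :: B) ++ (A ++ [u] ++ lost) := by simp
      rw [e1, e2]
      exact List.isRotated_append)
    (by
      intro A u lost hl hu _
      refine key (A ++ [u]) lost w0 u ?_ ?_ (by simp) hw0 hu
      · have e1 : (A ++ [u]) ++ lost = w0 :: r := by rw [hl]; simp
        rw [e1]
        exact hr
      · rcases A with _ | ⟨a, A⟩
        · simp only [List.nil_append, List.cons.injEq] at hl
          simp [hl.1]
        · simp only [List.cons_append, List.cons.injEq] at hl
          simp [hl.1])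
  have hlen : ((w0 :: r).dropWhile (fun z => decide (z ∉ Y))).length ≤ c.length := by
    rw [hr.perm.length_eq]
    exact List.length_dropWhile_le _ _
  have hcard : Y.card ≤ ((w0 :: r).filter (fun z => decide (z ∈ Y))).length := by
    have hsub : Y ⊆ ((w0 :: r).filter (fun z => decide (z ∈ Y))).toFinset := by
      intro w hw
      rw [List.mem_toFinset, List.mem_filter]
      exact ⟨hr.perm.mem_iff.1 (hY w hw), by simpa using hw⟩
    exact (Finset.card_le_card hsub).trans (List.toFinset_card_le _)
  have h1 : Y.card * (g + 1) ≤ c.length :=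
    ((Nat.mul_le_mul_right _ hcard).trans hmain).trans hlen
  have h2 : c.length < Y.card * (g + 1) := by
    rw [hg]
    exact Nat.lt_mul_div_succ _ hk
  omega

end Pool.Agent.TFN
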