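import Pool.Agent.TFN.Defs

/-! N4: two vertices with many common neighbours. -/

namespace Pool.Agent.TFN

open List Pool.Agent.TF82 Pool.Agent.TFC Pool.Agent.TFB

universe u

set_option linter.unusedSectionVars false
set_option linter.unusedVariables false

variable {V : Type u} [DecidableEq V]

theorem common_pair (G : SimpleGraph V) [DecidableRel G.Adj] (X Y : Finset V)
    (h : 2 * Y.card ≤ ∑ x ∈ X, (Y.filter (fun y => G.Adj x y)).card) (hY : Y.Nonempty) :
    ∃ x ∈ X, ∃ x' ∈ X, x ≠ x' ∧
      Y.card ≤ X.card ^ 2 * (Y.filter (fun y => G.Adj x y ∧ G.Adj x' y)).card := by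
  by_contra hcon
  push Not at hcon
  have hY0 : 0 < Y.card := hY.card_pos
  have h1 : ∑ x ∈ X, (Y.filter (fun y => G.Adj x y)).card =
      ∑ y ∈ Y, (X.filter (fun x => G.Adj x y)).card :=
    Finset.sum_card_bipartiteAbove_eq_sum_card_bipartiteBelow G.Adj
  have h2 : ∑ p ∈ X.offDiag, (Y.filter (fun y => G.Adj p.1 y ∧ G.Adj p.2 y)).card =
      ∑ y ∈ Y, (X.offDiag.filter (fun p => G.Adj p.1 y ∧ G.Adj p.2 y)).card :=
    Finset.sum_card_bipartiteAbove_eq_sum_card_bipartiteBelow
      (fun (p : V × V) (y : V) => G.Adj p.1 y ∧ G.Adj p.2 y)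
  have h3 : ∀ y, (X.offDiag.filter (fun p => G.Adj p.1 y ∧ G.Adj p.2 y)).card =
      (X.filter (fun x => G.Adj x y)).card * (X.filter (fun x => G.Adj x y)).card -
        (X.filter (fun x => G.Adj x y)).card := by
    intro y
    rw [← Finset.offDiag_card]
    congr 1
    ext p
    simp only [Finset.mem_filter, Finset.mem_offDiag]
    tauto
  have h4 : ∑ y ∈ Y, (X.filter (fun x => G.Adj x y)).card ≤
      ∑ y ∈ Y, ((X.offDiag.filter (fun p => G.Adj p.1 y ∧ G.Adj p.2 y)).card + 1) := by
    refine Finset.sum_le_sum fun y _ => ?_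
    rw [h3]
    generalize (X.filter (fun x => G.Adj x y)).card = c
    rcases Nat.eq_zero_or_pos c with rfl | hc
    · omega
    · obtain ⟨d, rfl⟩ : ∃ d, c = d + 1 := ⟨c - 1, by omega⟩
      have h5 : (d + 1) * (d + 1) - (d + 1) = (d + 1) * d := by
        rw [show (d + 1) * (d + 1) = (d + 1) * d + (d + 1) by ring]
        omega
      rw [h5]
      nlinarith
  rw [Finset.sum_add_distrib, Finset.sum_const, smul_eq_mul, mul_one] at h4
  have h5 : X.card ^ 2 * ∑ p ∈ X.offDiag, (Y.filter (fun y => G.Adj p.1 y ∧ G.Adj p.2 y)).card ≤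
      X.card ^ 2 * (Y.card - 1) := by
    rw [Finset.mul_sum]
    calc ∑ p ∈ X.offDiag, X.card ^ 2 * (Y.filter (fun y => G.Adj p.1 y ∧ G.Adj p.2 y)).card ≤
        ∑ p ∈ X.offDiag, (Y.card - 1) := by
          refine Finset.sum_le_sum fun p hp => ?_
          rw [Finset.mem_offDiag] at hp
          have := hcon p.1 hp.1 p.2 hp.2.1 hp.2.2
          omega
      _ = X.offDiag.card * (Y.card - 1) := by rw [Finset.sum_const, smul_eq_mul]
      _ ≤ X.card ^ 2 * (Y.card - 1) := by
          refine Nat.mul_le_mul_right _ ?_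
          rw [Finset.offDiag_card, sq]
          exact Nat.sub_le _ _
  have hX : 0 < X.card := by
    rcases X.eq_empty_or_nonempty with rfl | hX
    · rw [Finset.sum_empty] at h
      omega
    · exact hX.card_pos
  have h6 := Nat.le_of_mul_le_mul_left h5 (by positivity)
  omega

end Pool.Agent.TFN
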