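import Pool.Agent.TFN.Merge
import Pool.Agent.TFN.Gap
import Pool.Agent.TFN.Pigeon

/-! N5: few edges from a window of one cycle to another cycle. -/

namespace Pool.Agent.TFN

open List Pool.Agent.TF82 Pool.Agent.TFC Pool.Agent.TFB

universe u

set_option linter.unusedSectionVars false
set_option linter.unusedVariables false

variable {V : Type u} [DecidableEq V]

theorem fam_disj {G : SimpleGraph V} {F : List (List V)} (hF : Fam G F) {c c' : List V}
    (hc : c ∈ F) (hc' : c' ∈ F) (hne : c ≠ c') : List.Disjoint c c' := by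
  have h2 := (List.nodup_flatten.1 hF.nod).2
  have : Std.Symm (List.Disjoint : List V → List V → Prop) := ⟨fun _ _ h => h.symm⟩
  exact h2.forall hc hc' hne

theorem split_window {W : List V} {x x' : V} (hx : x ∈ W) (hx' : x' ∈ W) (hne : x ≠ x') :
    ∃ (W1 W2 W3 : List V) (a b : V), W = W1 ++ (a :: (W2 ++ (b :: W3))) ∧
      ((a = x ∧ b = x') ∨ (a = x' ∧ b = x)) := by
  obtain ⟨s, t, rfl⟩ := List.append_of_mem hx
  rcases List.mem_append.1 hx' with h | h
  · obtain ⟨s1, s2, rfl⟩ := List.append_of_mem h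
    exact ⟨s1, s2, t, x', x, by simp, Or.inr ⟨rfl, rfl⟩⟩
  · rcases List.mem_cons.1 h with h | h
    · exact absurd h.symm hne
    · obtain ⟨t1, t2, rfl⟩ := List.append_of_mem h
      exact ⟨s, t1, t2, x, x', rfl, Or.inl ⟨rfl, rfl⟩⟩

theorem no_window {G : SimpleGraph V} [DecidableRel G.Adj] {F : List (List V)}
    {Lo w q : ℕ} (hF : Fam G F) (hN : NoMerge G F Lo) {c c' : List V} (hc : c ∈ F)
    (hc' : c' ∈ F) (hne : c ≠ c') {A W B : List V} (hcW : c = A ++ (W ++ B))
    (hW : W.length ≤ w) (X : Finset V) (hX : ∀ x ∈ X, x ∈ W) (hXq : X.card ≤ q)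
    (hL : w + q ^ 2 ≤ Lo) : ∑ x ∈ X, nb G c' x < 2 * c'.length := by
  by_contra hcon
  push Not at hcon
  have hcyc := hF.cyc c hc
  have hcyc' := hF.cyc c' hc'
  have hYc : c'.toFinset.card = c'.length := List.toFinset_card_of_nodup hcyc'.1
  have h3' : 3 ≤ c'.length := hcyc'.2.1
  obtain ⟨x, hx, x', hx', hxx, hcommon⟩ := common_pair G X c'.toFinset
    (by rw [hYc]; exact hcon) (Finset.card_pos.1 (by omega))
  rw [hYc] at hcommon
  obtain ⟨Y, hY⟩ : ∃ Y, Y = c'.toFinset.filter (fun y => G.Adj x y ∧ G.Adj x' y) := ⟨_, rfl⟩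
  rw [← hY] at hcommon
  have hmY : ∀ y ∈ Y, y ∈ c' ∧ G.Adj x y ∧ G.Adj x' y := by
    intro y hy
    rw [hY, Finset.mem_filter, List.mem_toFinset] at hy
    exact hy
  have hYpos : 0 < Y.card := by
    rcases Nat.eq_zero_or_pos Y.card with h | h
    · rw [h] at hcommon; omega
    · exact h
  obtain ⟨R, lost, y, y', hrot, hR, hy, hy', hgap⟩ := gap_exists hcyc' Y
    (fun y hy => (hmY y hy).1) (Finset.card_pos.1 hYpos)
  have hlost : lost.length + 1 ≤ q ^ 2 := by
    have h1 : Y.card * (lost.length + 1) ≤ Y.card * q ^ 2 := by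
      calc Y.card * (lost.length + 1) ≤ c'.length := hgap
        _ ≤ X.card ^ 2 * Y.card := hcommon
        _ ≤ q ^ 2 * Y.card := Nat.mul_le_mul_right _ (Nat.pow_le_pow_left hXq 2)
        _ = Y.card * q ^ 2 := Nat.mul_comm _ _
    exact Nat.le_of_mul_le_mul_left h1 hYpos
  obtain ⟨W1, W2, W3, a, b, hWs, hab⟩ := split_window (hX x hx) (hX x' hx') hxx
  have hay : G.Adj a y := by
    rcases hab with ⟨rfl, rfl⟩ | ⟨rfl, rfl⟩
    · exact (hmY y hy).2.1
    · exact (hmY y hy).2.2
  have hby : G.Adj b y' := by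
    rcases hab with ⟨rfl, rfl⟩ | ⟨rfl, rfl⟩
    · exact (hmY y' hy').2.2
    · exact (hmY y' hy').2.1
  obtain ⟨P, hPd⟩ : ∃ P, P = b :: (W3 ++ (B ++ (A ++ (W1 ++ [a])))) := ⟨_, rfl⟩
  have hcs : c = (A ++ (W1 ++ ([a] ++ W2))) ++ (b :: (W3 ++ B)) := by
    rw [hcW, hWs]; simp
  have hcP : (b :: (W3 ++ B)) ++ (A ++ (W1 ++ ([a] ++ W2))) = P ++ W2 := by
    rw [hPd]; simp
  have hPcyc : CycL G (P ++ W2) := by
    rw [← hcP]
    apply CycL.rot
    rw [← hcs]
    exact hcyc
  have hPseg : Seg G P b a := by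
    refine ⟨(List.isChain_append.1 hPcyc.2.2.1).1, ?_, ?_⟩
    · rw [hPd]; simp
    · have h1 : P = (b :: (W3 ++ (B ++ (A ++ W1)))) ++ [a] := by rw [hPd]; simp
      rw [h1, List.getLast?_append]
      rfl
  have hPc : ∀ z ∈ P, z ∈ c := by
    intro z hz
    rw [hcs]
    have : z ∈ (b :: (W3 ++ B)) ++ (A ++ (W1 ++ ([a] ++ W2))) := by
      rw [hcP]
      exact List.mem_append_left _ hz
    exact List.mem_append.2 (List.mem_append.1 this).symm
  have hRc : ∀ z ∈ R, z ∈ c' := by
    intro z hz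
    exact hrot.perm.mem_iff.2 (List.mem_append_left _ hz)
  have hdis := fam_disj hF hc hc' hne
  have hn : (P ++ R).Nodup := by
    rw [List.nodup_append]
    refine ⟨(List.nodup_append.1 hPcyc.1).1, ?_, ?_⟩
    · have h1 : (R ++ lost).Nodup := hrot.perm.nodup_iff.1 hcyc'.1
      exact (List.nodup_append.1 h1).1
    · rintro z hz z' hz' rfl
      exact hdis (hPc z hz) (hRc z hz')
  have hRpos : 1 ≤ R.length := by
    rcases R with _ | ⟨r, R⟩
    · have := hR.hd
      simp at this
    · simp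
  have hPlen : P.length + W2.length = c.length := by
    have h1 := congrArg List.length hcP
    have h2 := congrArg List.length hcs
    simp only [List.length_append, List.length_cons] at h1 h2 ⊢
    omega
  have hP2 : 2 ≤ P.length := by
    rw [hPd]
    simp only [List.length_append, List.length_cons, List.length_nil]
    omega
  have hNc : CycL G (P ++ R) := merge_cyc hPseg hR hay hby hn (by omega)
  have hfin := nm_two hF hN hc hc' hne hNc (fun z hz => by
    rcases List.mem_append.1 hz with h | h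
    · exact Or.inl (hPc z h)
    · exact Or.inr (hRc z h))
  have hRlen : R.length + lost.length = c'.length := by
    rw [hrot.perm.length_eq, List.length_append]
  have hWlen : W2.length + 2 ≤ w := by
    have h1 := congrArg List.length hWs
    simp only [List.length_append, List.length_cons] at h1
    omega
  rw [List.length_append] at hfin
  omega

end Pool.Agent.TFN
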