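import Pool.Agent.TFN.Defs

/-! N10: the 2-factor and the components given by some of the cycles. -/

namespace Pool.Agent.TFN

open List Pool.Agent.TF82 Pool.Agent.TFC Pool.Agent.TFB

universe u

set_option linter.unusedSectionVars false
set_option linter.unusedVariables false

variable {V : Type u} [DecidableEq V]

/-- all vertices of a cycle of the family are reachable from its head -/
private theorem reach_head {G : SimpleGraph V} {L : List (List V)} (hL : ∀ c ∈ L, CycL G c)
    {c : List V} (hc : c ∈ L) (hne : c ≠ []) {x : V} (hx : x ∈ c) :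
    (listGraph L G hL).Reachable (c.head hne) x := by
  have hcyc := hL c hc
  have hpos : 0 < c.length := List.length_pos_iff.2 hne
  have hall : ∀ j, ∀ hj : j < c.length,
      (listGraph L G hL).Reachable ((c)[0]'hpos) ((c)[j]) := by
    intro j
    induction j with
    | zero => intro hj; exact SimpleGraph.Reachable.refl _
    | succ j ihj =>
      intro hj
      refine (ihj (by omega)).trans (SimpleGraph.Adj.reachable ?_)
      refine ⟨c, hc, List.getElem_mem _, Or.inr ?_⟩
      rw [List.next_getElem _ hcyc.1]
      congr 1
      exact (Nat.mod_eq_of_lt (by omega)).symm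
  obtain ⟨j, hj, hjx⟩ := List.getElem_of_mem hx
  have h0 : c.head hne = (c)[0]'hpos := by
    simp [List.head_eq_getElem]
  rw [h0, ← hjx]
  exact hall j hj

theorem twoFactor_near [Fintype V] {G : SimpleGraph V} {L1 L2 : List (List V)}
    (hc : ∀ c ∈ L1 ++ L2, CycL G c) (hn : (L1 ++ L2).flatten.Nodup)
    (hall : ∀ x, x ∈ (L1 ++ L2).flatten) :
    ∃ F : SimpleGraph V, F ≤ G ∧ (∀ v, (F.neighborSet v).ncard = 2) ∧
      ∃ C : Set F.ConnectedComponent, C.ncard ≤ L1.length ∧
        {v : V | F.connectedComponentMk v ∉ C}.ncard ≤ L2.flatten.length := by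
  refine ⟨listGraph (L1 ++ L2) G hc, ?_, ?_, ?_⟩
  · rintro x y ⟨c, hcm, hx, h | h⟩
    · rw [h]; exact ((hc c hcm).prev_adj hx).symm
    · have h1 := (hc c hcm).prev_adj (List.next_mem c x hx)
      rw [List.prev_next c (hc c hcm).1 x hx] at h1
      rw [h]; exact h1
  · intro x
    obtain ⟨c, hcm, hx⟩ := List.mem_flatten.1 (hall x)
    have huniq : ∀ d ∈ L1 ++ L2, x ∈ d → d = c := by
      intro d hd hxd
      by_contra hne
      have h1 := (List.nodup_flatten.1 hn).2
      haveI : Std.Symm (fun l₁ l₂ : List V => List.Disjoint l₁ l₂) :=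
        ⟨fun _ _ h => h.symm⟩
      have h2 : List.Disjoint c d := List.Pairwise.forall h1 hcm hd (Ne.symm hne)
      exact h2 hx hxd
    have hset : (listGraph (L1 ++ L2) G hc).neighborSet x = {c.prev x hx, c.next x hx} := by
      ext y
      simp only [SimpleGraph.mem_neighborSet, Set.mem_insert_iff, Set.mem_singleton_iff]
      constructor
      · rintro ⟨d, hd, hxd, h⟩
        have := huniq d hd hxd
        subst this
        exact h
      · intro h
        exact ⟨c, hcm, hx, h⟩
    rw [hset, Set.ncard_pair (next_ne_prev (hc c hcm) hx).symm]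
  · have hne : ∀ c ∈ L1 ++ L2, c ≠ [] := by
      intro c hcm h
      have := (hc c hcm).2.1
      rw [h] at this
      simp at this
    let f : Fin L1.length → (listGraph (L1 ++ L2) G hc).ConnectedComponent := fun i =>
      (listGraph (L1 ++ L2) G hc).connectedComponentMk
        ((L1.get i).head (hne _ (List.mem_append_left _ (List.get_mem L1 i))))
    refine ⟨Set.range f, ?_, ?_⟩
    · have h1 : (Set.range f).ncard ≤ (Set.univ : Set (Fin L1.length)).ncard := by
        rw [← Set.image_univ]
        exact Set.ncard_image_le
      rw [Set.ncard_univ, Nat.card_fin] at h1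
      exact h1
    · have h2 : {v : V | (listGraph (L1 ++ L2) G hc).connectedComponentMk v ∉ Set.range f} ⊆
          ((L2.flatten.toFinset : Finset V) : Set V) := by
        intro v hv
        rw [Set.mem_setOf_eq] at hv
        rw [Finset.mem_coe, List.mem_toFinset]
        have h3 := hall v
        rw [List.flatten_append, List.mem_append] at h3
        rcases h3 with h3 | h3
        · exfalso
          apply hv
          obtain ⟨c, hcm, hx⟩ := List.mem_flatten.1 h3
          obtain ⟨i, hi, rfl⟩ := List.getElem_of_mem hcm
          refine ⟨⟨i, hi⟩, ?_⟩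
          simp only [f]
          rw [SimpleGraph.ConnectedComponent.eq]
          exact reach_head hc (List.mem_append_left _ hcm) _ hx
        · exact h3
      have h4 := Set.ncard_le_ncard h2 (Finset.finite_toSet _)
      rw [Set.ncard_coe_finset] at h4
      exact h4.trans (List.toFinset_card_le _)

end Pool.Agent.TFN
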