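import Pool.Agent.TFN.Defs

/-! N3: counting by windows. -/

namespace Pool.Agent.TFN

open List Pool.Agent.TF82 Pool.Agent.TFC Pool.Agent.TFB

universe u

set_option linter.unusedSectionVars false
set_option linter.unusedVariables false

variable {V : Type u} [DecidableEq V]

private theorem window_count_aux (w q : ℕ) (hw : 1 ≤ w) (hq : 1 ≤ q) (H : Finset V) :
    ∀ n : ℕ, ∀ l : List V, l.length ≤ n →
    (∀ A W B : List V, l = A ++ (W ++ B) → W.length ≤ w → (H ∩ W.toFinset).card < q) →
    (H ∩ l.toFinset).card ≤ q * (l.length / w + 1) := by
  intro n
  induction n with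
  | zero =>
    intro l hl _
    have h0 : l = [] := List.length_eq_zero_iff.1 (Nat.le_zero.1 hl)
    subst h0
    simp
  | succ n ih =>
    intro l hl hwin
    by_cases hlw : l.length < w
    · have h1 := hwin [] l [] (by simp) hlw.le
      have h2 : l.length / w = 0 := Nat.div_eq_of_lt hlw
      rw [h2]
      omega
    · have hlw' : w ≤ l.length := Nat.le_of_not_lt hlw
      have hsplit : l = l.take w ++ l.drop w := (List.take_append_drop w l).symm
      have h1 : (H ∩ (l.take w).toFinset).card < q := by
        refine hwin [] (l.take w) (l.drop w) (by simp) ?_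
        rw [List.length_take]
        exact Nat.min_le_left _ _
      have hdl : (l.drop w).length = l.length - w := List.length_drop
      have h2 : (H ∩ (l.drop w).toFinset).card ≤ q * ((l.drop w).length / w + 1) := by
        refine ih (l.drop w) (by rw [hdl]; omega) ?_
        intro A W B hAWB hW
        refine hwin (l.take w ++ A) W B ?_ hW
        rw [List.append_assoc, ← hAWB]
        exact hsplit
      have h3 : (l.drop w).length / w + 1 = l.length / w := by
        rw [hdl]
        have h4 : l.length = (l.length - w) + w := by omega
        have h5 : ((l.length - w) + w) / w = (l.length - w) / w + 1 :=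
          Nat.add_div_right _ (by omega)
        rw [← h5, ← h4]
      rw [h3] at h2
      have h6 : H ∩ l.toFinset ⊆ (H ∩ (l.take w).toFinset) ∪ (H ∩ (l.drop w).toFinset) := by
        intro x hx
        rw [Finset.mem_inter, List.mem_toFinset] at hx
        obtain ⟨hxH, hxl⟩ := hx
        rw [hsplit, List.mem_append] at hxl
        rw [Finset.mem_union, Finset.mem_inter, Finset.mem_inter, List.mem_toFinset,
          List.mem_toFinset]
        rcases hxl with h | h
        · exact Or.inl ⟨hxH, h⟩
        · exact Or.inr ⟨hxH, h⟩
      have h7 := (Finset.card_le_card h6).trans (Finset.card_union_le _ _)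
      have h8 : q * (l.length / w + 1) = q * (l.length / w) + q := by ring
      rw [h8]
      omega

theorem window_count (w q : ℕ) (hw : 1 ≤ w) (hq : 1 ≤ q) (H : Finset V) : ∀ l : List V,
    (∀ A W B : List V, l = A ++ (W ++ B) → W.length ≤ w → (H ∩ W.toFinset).card < q) →
    (H ∩ l.toFinset).card ≤ q * (l.length / w + 1) := by
  intro l hl
  exact window_count_aux w q hw hq H l.length l le_rfl hl

end Pool.Agent.TFN
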