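import Pool.Agent.TFN.NoWin
import Pool.Agent.TFN.Window

/-! N7: few heavy vertices. -/

namespace Pool.Agent.TFN

open List Pool.Agent.TF82 Pool.Agent.TFC Pool.Agent.TFB

universe u

set_option linter.unusedSectionVars false
set_option linter.unusedVariables false

variable {V : Type u} [DecidableEq V]

theorem heavy_count {G : SimpleGraph V} [DecidableRel G.Adj] {F : List (List V)}
    {Lo e w : ℕ} (hF : Fam G F) (hN : NoMerge G F Lo) (he : 1 ≤ e) (hw : 1 ≤ w)
    (hL : w + (2 * e) ^ 2 ≤ Lo) {c c' : List V} (hc : c ∈ F) (hc' : c' ∈ F) (hne : c ≠ c') :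
    (heavy G e c c').card ≤ 2 * e * (c.length / w + 1) := by
  have hsub : heavy G e c c' ∩ c.toFinset = heavy G e c c' := by
    refine Finset.inter_eq_left.2 ?_
    unfold heavy
    exact Finset.filter_subset _ _
  rw [← hsub]
  refine window_count w (2 * e) hw (by omega) (heavy G e c c') c ?_
  intro A W B hcW hWw
  by_contra hcon
  have hcon' : 2 * e ≤ (heavy G e c c' ∩ W.toFinset).card := not_lt.1 hcon
  obtain ⟨X, hX1, hX2⟩ := Finset.exists_subset_card_eq hcon'
  have h1 := no_window hF hN hc hc' hne hcW hWw X (fun x hx =>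
    List.mem_toFinset.1 (Finset.mem_inter.1 (hX1 hx)).2) hX2.le hL
  have h2 : X.card • c'.length ≤ ∑ x ∈ X, e * nb G c' x := by
    refine Finset.card_nsmul_le_sum X _ _ ?_
    intro x hx
    have h3 := (Finset.mem_inter.1 (hX1 hx)).1
    unfold heavy at h3
    exact (Finset.mem_filter.1 h3).2
  rw [hX2, smul_eq_mul, ← Finset.mul_sum] at h2
  have h4 : e * ∑ x ∈ X, nb G c' x < e * (2 * c'.length) := Nat.mul_lt_mul_of_pos_left h1 he
  have h5 : 2 * e * c'.length = e * (2 * c'.length) := by ring
  omega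

end Pool.Agent.TFN
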