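import Pool.Agent.TFN.Defs

/-! N8a: choosing pairwise nonadjacent vertices, one on every cycle. -/

namespace Pool.Agent.TFN

open List Pool.Agent.TF82 Pool.Agent.TFC Pool.Agent.TFB

universe u

set_option linter.unusedSectionVars false
set_option linter.unusedVariables false

variable {V : Type u} [DecidableEq V]

/-- `D`: some cycles, `Z c`: the candidates on `c` -/
theorem select [Nonempty V] {G : SimpleGraph V} [DecidableRel G.Adj] {e m : ℕ} (he : 1 ≤ e)
    (Z : List V → Finset V) : ∀ D : List (List V), D.Nodup → D.length ≤ m →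
    (∀ c ∈ D, Z c ⊆ c.toFinset) →
    (∀ c ∈ D, ∀ c' ∈ D, c ≠ c' → ∀ x ∈ Z c, e * nb G c' x < c'.length) →
    (∀ c ∈ D, m * c.length < e * (Z c).card) →
    ∃ z : List V → V, (∀ c ∈ D, z c ∈ Z c) ∧
      ∀ c ∈ D, ∀ c' ∈ D, c ≠ c' → ¬ G.Adj (z c) (z c') := by
  intro D
  induction D with
  | nil =>
    intro _ _ _ _ _
    exact ⟨fun _ => Classical.arbitrary V, by simp, by simp⟩
  | cons c D ih =>
    intro hnd hlen hsub hnb hZ
    obtain ⟨z, hz1, hz2⟩ := ih hnd.of_cons (by simp at hlen; omega)
      (fun c' hc' => hsub c' (List.mem_cons_of_mem _ hc'))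
      (fun c' hc' c'' hc'' => hnb c' (List.mem_cons_of_mem _ hc') c'' (List.mem_cons_of_mem _ hc''))
      (fun c' hc' => hZ c' (List.mem_cons_of_mem _ hc'))
    have hcD : c ∉ D := (List.nodup_cons.1 hnd).1
    obtain ⟨bad, hbad⟩ : ∃ bad : Finset V,
      bad = D.toFinset.biUnion (fun c' => c.toFinset.filter (fun y => G.Adj (z c') y)) := ⟨_, rfl⟩
    have hbc : e * bad.card ≤ m * c.length := by
      have h1 : bad.card ≤ ∑ c' ∈ D.toFinset, nb G c (z c') := by
        rw [hbad]
        exact Finset.card_biUnion_le
      calc e * bad.card ≤ e * ∑ c' ∈ D.toFinset, nb G c (z c') := Nat.mul_le_mul_left _ h1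
        _ = ∑ c' ∈ D.toFinset, e * nb G c (z c') := Finset.mul_sum _ _ _
        _ ≤ ∑ c' ∈ D.toFinset, c.length := by
            refine Finset.sum_le_sum fun c' hc' => ?_
            have hc'' : c' ∈ D := List.mem_toFinset.1 hc'
            exact (hnb c' (List.mem_cons_of_mem _ hc'') c List.mem_cons_self
              (fun h => hcD (h ▸ hc'')) (z c') (hz1 c' hc'')).le
        _ = D.toFinset.card * c.length := by rw [Finset.sum_const, smul_eq_mul]
        _ ≤ m * c.length := by
            refine Nat.mul_le_mul_right _ ((List.toFinset_card_le D).trans ?_)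
            simp at hlen
            omega
    have hlt : bad.card < (Z c).card := by
      have h1 := hZ c List.mem_cons_self
      exact lt_of_mul_lt_mul_left (lt_of_le_of_lt hbc h1) (Nat.zero_le e)
    obtain ⟨x, hx1, hx2⟩ := Finset.exists_mem_notMem_of_card_lt_card hlt
    have hxn : ∀ c' ∈ D, ¬ G.Adj (z c') x := by
      intro c' hc' hadj
      apply hx2
      rw [hbad, Finset.mem_biUnion]
      exact ⟨c', List.mem_toFinset.2 hc', Finset.mem_filter.2
        ⟨hsub c List.mem_cons_self hx1, hadj⟩⟩
    have hne1 : ∀ c' ∈ D, c' ≠ c := by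
      intro c' hc' h
      rw [h] at hc'
      exact hcD hc'
    refine ⟨Function.update z c x, fun c' hc' => ?_, fun c' hc' c'' hc'' hne => ?_⟩
    · rcases List.mem_cons.1 hc' with rfl | hc'
      · rw [Function.update_self]
        exact hx1
      · rw [Function.update_of_ne (hne1 c' hc')]
        exact hz1 c' hc'
    · rcases List.mem_cons.1 hc' with h1 | h1
      · rcases List.mem_cons.1 hc'' with h2 | h2
        · exact absurd (h1.trans h2.symm) hne
        · rw [h1, Function.update_self, Function.update_of_ne (hne1 c'' h2)]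
          exact fun h => hxn c'' h2 h.symm
      · rcases List.mem_cons.1 hc'' with h2 | h2
        · rw [h2, Function.update_self, Function.update_of_ne (hne1 c' h1)]
          exact hxn c' h1
        · rw [Function.update_of_ne (hne1 c' h1), Function.update_of_ne (hne1 c'' h2)]
          exact hz2 c' h1 c'' h2 hne

end Pool.Agent.TFN
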