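import Pool.Agent.TFN.Large
import Pool.Agent.TFN.Heavy
import Pool.Agent.TFN.Select

/-! N8b: at least k + 1 cycles can be reduced at a small loss. -/

namespace Pool.Agent.TFN

open List Pool.Agent.TF82 Pool.Agent.TFC Pool.Agent.TFB

universe u

set_option linter.unusedSectionVars false
set_option linter.unusedVariables false

variable {V : Type u} [DecidableEq V]

theorem contra [Fintype V] {G : SimpleGraph V} [DecidableRel G.Adj] {F : List (List V)}
    {k t J b e : ℕ} (ht : 1 ≤ t) (hJ : 1 ≤ J) (he : e = 4 * t * (k + 1) * J ^ 2)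
    (hσ : ∀ I : Finset V, G.IsIndepSet (I : Set V) → I.card = k + 1 →
      Fintype.card V ≤ ∑ v ∈ I, dU G Finset.univ v)
    (hd : ∀ v, Fintype.card V ≤ t * dU G Finset.univ v)
    (I : Finset V) (hI : G.IsIndepSet (I : Set V)) (hIc : 2 * Fintype.card V ≤ t * I.card)
    (hF : Fam G F) (hN : NoMerge G F (8 * e ^ 2)) (hk : k + 1 ≤ F.length)
    (hFJ : F.length ≤ J) (hunc : (unc F).card ≤ b)
    (hb : 4 * (k + 1) * t * J * b ≤ Fintype.card V)
    (hn : 16 * t * e ^ 2 ≤ Fintype.card V) (hn0 : 0 < Fintype.card V) : False := by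
  classical
  obtain ⟨n, hndef⟩ : ∃ n, n = Fintype.card V := ⟨_, rfl⟩
  have hV : Nonempty V := Fintype.card_pos_iff.1 hn0
  -- arithmetic
  have hJ2 : 1 ≤ J ^ 2 := Nat.one_le_pow _ _ hJ
  have he4t : 4 * t ≤ e := by
    rw [he]
    calc 4 * t = 4 * t * 1 * 1 := by ring
      _ ≤ 4 * t * (k + 1) * J ^ 2 := by gcongr; omega
  have he1 : 1 ≤ e := by omega
  obtain ⟨K, hK⟩ : ∃ K, K = (k + 1) * J := ⟨_, rfl⟩
  have hK1 : k + 1 ≤ K := by
    rw [hK]
    exact Nat.le_mul_of_pos_right _ hJ
  have hKJ : J ≤ K := by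
    rw [hK]
    exact Nat.le_mul_of_pos_left _ (Nat.succ_pos k)
  have heK : e = 4 * K * (t * J) := by
    rw [he, hK]
    ring
  have htJ : 1 ≤ t * J := Nat.mul_pos ht hJ
  have heK' : 4 * K ≤ e := by
    rw [heK]
    exact Nat.le_mul_of_pos_right _ htJ
  have hLlo : 4 * t + (4 * t) ^ 2 ≤ 8 * e ^ 2 := by
    have h1 : (4 * t) ^ 2 ≤ e ^ 2 := Nat.pow_le_pow_left he4t 2
    have h2 : e ≤ e ^ 2 := by nlinarith
    omega
  have htb : 4 * (t * b) ≤ n := by
    rw [hndef]
    refine le_trans ?_ hb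
    calc 4 * (t * b) = 4 * 1 * t * 1 * b := by ring
      _ ≤ 4 * (k + 1) * t * J * b := by gcongr; omega
  -- the cycles
  have hpd := (List.nodup_flatten.1 hF.nod).2
  have hlen3 : ∀ c ∈ F, 3 ≤ c.length := fun c hc => (hF.cyc c hc).2.1
  have hFn : F.Nodup := by
    refine List.Pairwise.imp_of_mem (fun {c c'} hc _ hdis heq => ?_) hpd
    subst heq
    have h1 := hlen3 c hc
    obtain ⟨x, hx⟩ := List.exists_mem_of_length_pos (by omega : 0 < c.length)
    exact hdis hx hx
  have hdis : ∀ c ∈ F, ∀ c' ∈ F, c ≠ c' → ∀ x ∈ c, x ∉ c' := by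
    intro c hc c' hc' hne x hx hx'
    have : Std.Symm (List.Disjoint : List V → List V → Prop) := ⟨fun _ _ h => h.symm⟩
    exact hpd.forall hc hc' hne hx hx'
  have hlarge : ∀ c ∈ F, n ≤ 4 * t * c.length := by
    intro c hc
    have h1 := nm_large hF hN ht hd hunc hLlo hc
    rw [← hndef] at h1
    have h2 : 2 * t * (c.length + b) = 2 * t * c.length + 2 * (t * b) := by ring
    have h3 : 4 * t * c.length = 2 * (2 * t * c.length) := by ring
    omega
  have h4e : ∀ c ∈ F, 4 * e ^ 2 ≤ c.length := by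
    intro c hc
    have h1 := hlarge c hc
    rw [← hndef] at hn
    have h2 : 4 * t * (4 * e ^ 2) ≤ 4 * t * c.length := by
      calc 4 * t * (4 * e ^ 2) = 16 * t * e ^ 2 := by ring
        _ ≤ 4 * t * c.length := hn.trans h1
    exact Nat.le_of_mul_le_mul_left h2 (by omega)
  have hheavy : ∀ c ∈ F, ∀ c' ∈ F, c ≠ c' → e * (heavy G e c c').card ≤ c.length := by
    intro c hc c' hc' hne
    have h1 := heavy_count hF hN he1 (w := 4 * e ^ 2) (by nlinarith) (by
      have : (2 * e) ^ 2 = 4 * e ^ 2 := by ring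
      omega) hc hc' hne
    have h2 : 4 * e ^ 2 * (c.length / (4 * e ^ 2)) ≤ c.length := Nat.mul_div_le _ _
    have h3 := Nat.mul_le_mul_left (2 * e) h1
    have h4 : 2 * e * (2 * e * (c.length / (4 * e ^ 2) + 1)) =
        4 * e ^ 2 * (c.length / (4 * e ^ 2)) + 4 * e ^ 2 := by ring
    have h5 := h4e c hc
    have h6 : 2 * e * (heavy G e c c').card = 2 * (e * (heavy G e c c').card) := by ring
    omega
  -- the finset of the cycles
  obtain ⟨𝓕, h𝓕⟩ : ∃ 𝓕, 𝓕 = F.toFinset := ⟨_, rfl⟩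
  have hmem : ∀ c, c ∈ 𝓕 ↔ c ∈ F := fun c => by rw [h𝓕, List.mem_toFinset]
  have h𝓕c : 𝓕.card ≤ J := by
    rw [h𝓕, List.toFinset_card_of_nodup hFn]
    exact hFJ
  have hsum : ∑ c ∈ 𝓕, c.length ≤ n := by
    rw [h𝓕, List.sum_toFinset _ hFn, ← List.length_flatten, hndef]
    exact hF.nod.length_le_card
  have hlenn : ∀ c ∈ F, c.length ≤ n := by
    intro c hc
    exact (Finset.single_le_sum (f := fun c : List V => c.length) (fun _ _ => Nat.zero_le _)
      ((hmem c).2 hc)).trans hsum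
  obtain ⟨bad, hbad⟩ : ∃ bad : List V → Finset V,
      bad = fun c => (𝓕.erase c).biUnion (fun c' => heavy G e c c') := ⟨_, rfl⟩
  have hbadc : ∀ c ∈ F, e * (bad c).card ≤ J * c.length := by
    intro c hc
    have h1 : (bad c).card ≤ ∑ c' ∈ 𝓕.erase c, (heavy G e c c').card := by
      rw [hbad]
      exact Finset.card_biUnion_le
    calc e * (bad c).card ≤ e * ∑ c' ∈ 𝓕.erase c, (heavy G e c c').card :=
          Nat.mul_le_mul_left _ h1
      _ = ∑ c' ∈ 𝓕.erase c, e * (heavy G e c c').card := Finset.mul_sum _ _ _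
      _ ≤ ∑ c' ∈ 𝓕.erase c, c.length := by
          refine Finset.sum_le_sum fun c' hc' => ?_
          have h2 := Finset.mem_erase.1 hc'
          exact hheavy c hc c' ((hmem c').1 h2.2) (Ne.symm h2.1)
      _ = (𝓕.erase c).card * c.length := by rw [Finset.sum_const, smul_eq_mul]
      _ ≤ J * c.length := by
          refine Nat.mul_le_mul_right _ (le_trans ?_ h𝓕c)
          exact Finset.card_erase_le
  -- the cycle with many vertices of `I`
  have hne𝓕 : 𝓕.Nonempty := by
    obtain ⟨c, hc⟩ := List.exists_mem_of_length_pos (by omega : 0 < F.length)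
    exact ⟨c, (hmem c).2 hc⟩
  obtain ⟨c0, hc0', hmax⟩ := Finset.exists_max_image 𝓕 (fun c => (I ∩ c.toFinset).card) hne𝓕
  have hc0 : c0 ∈ F := (hmem c0).1 hc0'
  obtain ⟨a, ha⟩ : ∃ a, a = (I ∩ c0.toFinset).card := ⟨_, rfl⟩
  have haI : I.card ≤ b + J * a := by
    have h1 : I ⊆ unc F ∪ 𝓕.biUnion (fun c => I ∩ c.toFinset) := by
      intro x hx
      rw [Finset.mem_union]
      by_cases hxF : x ∈ F.flatten
      · right
        obtain ⟨c, hc, hxc⟩ := List.mem_flatten.1 hxF
        rw [Finset.mem_biUnion]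
        exact ⟨c, (hmem c).2 hc, Finset.mem_inter.2 ⟨hx, List.mem_toFinset.2 hxc⟩⟩
      · left
        exact mem_unc.2 hxF
    have h2 := Finset.card_le_card h1
    have h3 := Finset.card_union_le (unc F) (𝓕.biUnion (fun c => I ∩ c.toFinset))
    have h4 : (𝓕.biUnion (fun c => I ∩ c.toFinset)).card ≤ J * a := by
      refine Finset.card_biUnion_le.trans ?_
      calc ∑ c ∈ 𝓕, (I ∩ c.toFinset).card ≤ ∑ c ∈ 𝓕, a :=
            Finset.sum_le_sum fun c hc => by rw [ha]; exact hmax c hc
        _ = 𝓕.card * a := by rw [Finset.sum_const, smul_eq_mul]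
        _ ≤ J * a := Nat.mul_le_mul_right _ h𝓕c
    omega
  have han : n ≤ t * J * a := by
    rw [← hndef] at hIc
    have h1 := Nat.mul_le_mul_left t haI
    have h2 : t * (b + J * a) = t * b + t * J * a := by ring
    omega
  have hea : 4 * K * n ≤ e * a := by
    calc 4 * K * n ≤ 4 * K * (t * J * a) := Nat.mul_le_mul_left _ han
      _ = e * a := by rw [heK]; ring
  -- `k + 1` cycles
  obtain ⟨D, hD⟩ : ∃ D, D = c0 :: (F.erase c0).take k := ⟨_, rfl⟩
  have hDF : ∀ c ∈ D, c ∈ F := by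
    intro c hc
    rw [hD] at hc
    rcases List.mem_cons.1 hc with h | h
    · rw [h]; exact hc0
    · exact List.mem_of_mem_erase (List.mem_of_mem_take h)
  have hDlen : D.length = k + 1 := by
    rw [hD, List.length_cons, List.length_take, List.length_erase_of_mem hc0]
    omega
  have hDn : D.Nodup := by
    rw [hD, List.nodup_cons]
    refine ⟨fun h => ?_, (hFn.erase c0).sublist (List.take_sublist _ _)⟩
    exact hFn.not_mem_erase (List.mem_of_mem_take h)
  have hc0D : c0 ∈ D := by rw [hD]; exact List.mem_cons_self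
  obtain ⟨Z, hZ⟩ : ∃ Z : List V → Finset V,
      Z = fun c => if c = c0 then (I ∩ c0.toFinset) \ bad c0 else c.toFinset \ bad c := ⟨_, rfl⟩
  have hZ0 : Z c0 = (I ∩ c0.toFinset) \ bad c0 := by rw [hZ]; simp
  have hZne : ∀ c, c ≠ c0 → Z c = c.toFinset \ bad c := by
    intro c hc
    rw [hZ]
    simp [hc]
  have hZsub : ∀ c, Z c ⊆ c.toFinset := by
    intro c
    by_cases hc : c = c0
    · rw [hc, hZ0]
      exact Finset.sdiff_subset.trans Finset.inter_subset_right
    · rw [hZne c hc]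
      exact Finset.sdiff_subset
  have hZbad : ∀ c, ∀ x ∈ Z c, x ∉ bad c := by
    intro c x hx
    by_cases hc : c = c0
    · rw [hc, hZ0] at hx
      rw [hc]
      exact (Finset.mem_sdiff.1 hx).2
    · rw [hZne c hc] at hx
      exact (Finset.mem_sdiff.1 hx).2
  have hZnb : ∀ c ∈ F, ∀ c' ∈ F, c ≠ c' → ∀ x ∈ Z c, e * nb G c' x < c'.length := by
    intro c hc c' hc' hne x hx
    by_contra hcon
    push Not at hcon
    apply hZbad c x hx
    rw [hbad]
    simp only [Finset.mem_biUnion]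
    refine ⟨c', Finset.mem_erase.2 ⟨Ne.symm hne, (hmem c').2 hc'⟩, ?_⟩
    exact Finset.mem_filter.2 ⟨hZsub c hx, hcon⟩
  have hZc : ∀ c ∈ D, (k + 1) * c.length < e * (Z c).card := by
    intro c hc
    have hcF := hDF c hc
    have hb1 := hbadc c hcF
    have hpos : 0 < c.length := by have := hlen3 c hcF; omega
    by_cases hcc : c = c0
    · subst hcc
      rw [hZ0]
      have h1 := Finset.le_card_sdiff (bad c) (I ∩ c.toFinset)
      rw [← ha] at h1
      have h2 : a ≤ ((I ∩ c.toFinset) \ bad c).card + (bad c).card := by omega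
      have h3 := Nat.mul_le_mul_left e h2
      rw [mul_add] at h3
      have h4 := hlenn c hcF
      have h5 : J * c.length ≤ K * n := Nat.mul_le_mul hKJ h4
      have h6 : (k + 1) * c.length ≤ K * n := Nat.mul_le_mul hK1 h4
      have h7 : 0 < K * n := Nat.mul_pos (by omega) (by omega)
      have h8 : 4 * K * n = 4 * (K * n) := by ring
      omega
    · rw [hZne c hcc]
      have h1 := Finset.le_card_sdiff (bad c) c.toFinset
      rw [List.toFinset_card_of_nodup (hF.cyc c hcF).1] at h1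
      have h2 : c.length ≤ (c.toFinset \ bad c).card + (bad c).card := by omega
      have h3 := Nat.mul_le_mul_left e h2
      rw [mul_add] at h3
      have h4 : 4 * K * c.length ≤ e * c.length := Nat.mul_le_mul_right _ heK'
      have h5 : J * c.length ≤ K * c.length := Nat.mul_le_mul_right _ hKJ
      have h6 : (k + 1) * c.length ≤ K * c.length := Nat.mul_le_mul_right _ hK1
      have h7 : 0 < K * c.length := Nat.mul_pos (by omega) hpos
      have h8 : 4 * K * c.length = 4 * (K * c.length) := by ring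
      omega
  obtain ⟨z, hz1, hz2⟩ := select (G := G) (e := e) (m := k + 1) he1 Z D hDn hDlen.le
    (fun c _ => hZsub c) (fun c hc c' hc' => hZnb c (hDF c hc) c' (hDF c' hc')) hZc
  have hzc : ∀ c ∈ D, z c ∈ c := fun c hc => List.mem_toFinset.1 (hZsub c (hz1 c hc))
  -- the independent set
  obtain ⟨Df, hDf⟩ : ∃ Df, Df = D.toFinset := ⟨_, rfl⟩
  have hDm : ∀ c, c ∈ Df ↔ c ∈ D := fun c => by rw [hDf, List.mem_toFinset]
  have hDc : Df.card = k + 1 := by rw [hDf, List.toFinset_card_of_nodup hDn, hDlen]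
  have hzinj : Set.InjOn z Df := by
    intro c hc c' hc' heq
    by_contra hne
    have h1 := (hDm c).1 hc
    have h2 := (hDm c').1 hc'
    exact hdis c (hDF c h1) c' (hDF c' h2) hne (z c) (hzc c h1) (heq ▸ hzc c' h2)
  have hSc : (Df.image z).card = k + 1 := by
    rw [Finset.card_image_of_injOn hzinj, hDc]
  have hSi : G.IsIndepSet ((Df.image z : Finset V) : Set V) := by
    intro x hx y hy hxy
    rw [Finset.mem_coe, Finset.mem_image] at hx hy
    obtain ⟨c, hc, rfl⟩ := hx
    obtain ⟨c', hc', rfl⟩ := hy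
    have hne : c ≠ c' := fun h => hxy (by rw [h])
    exact hz2 c ((hDm c).1 hc) c' ((hDm c').1 hc') hne
  have hσ' := hσ _ hSi hSc
  rw [← hndef, Finset.sum_image hzinj] at hσ'
  -- degrees
  have hdeg : ∀ c ∈ Df, e * dU G Finset.univ (z c) ≤ e * nb G c (z c) + (n + e * b) := by
    intro c hc
    have hcD := (hDm c).1 hc
    have hcF := hDF c hcD
    have h1 := deg_split hF (z c)
    rw [← List.sum_toFinset _ hFn, ← h𝓕, ← Finset.add_sum_erase 𝓕 _ ((hmem c).2 hcF)] at h1
    have h2 := Nat.mul_le_mul_left e h1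
    rw [mul_add, mul_add, Finset.mul_sum] at h2
    have h3 : ∑ c' ∈ 𝓕.erase c, e * nb G c' (z c) ≤ n := by
      calc ∑ c' ∈ 𝓕.erase c, e * nb G c' (z c) ≤ ∑ c' ∈ 𝓕.erase c, c'.length := by
            refine Finset.sum_le_sum fun c' hc' => ?_
            have h4 := Finset.mem_erase.1 hc'
            exact (hZnb c hcF c' ((hmem c').1 h4.2) (Ne.symm h4.1) (z c) (hz1 c hcD)).le
        _ ≤ ∑ c' ∈ 𝓕, c'.length :=
            Finset.sum_le_sum_of_subset (Finset.erase_subset _ _)
        _ ≤ n := hsum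
    have h4 := Nat.mul_le_mul_left e hunc
    omega
  have hnb0 : nb G c0 (z c0) + a ≤ c0.length := by
    have hzI : z c0 ∈ I := by
      have h1 := hz1 c0 hc0D
      rw [hZ0] at h1
      exact (Finset.mem_inter.1 (Finset.mem_sdiff.1 h1).1).1
    have hdisj : Disjoint (c0.toFinset.filter (fun y => G.Adj (z c0) y)) (I ∩ c0.toFinset) := by
      rw [Finset.disjoint_left]
      intro y hy hy'
      have h1 := (Finset.mem_filter.1 hy).2
      have h2 := (Finset.mem_inter.1 hy').1
      exact hI (Finset.mem_coe.2 hzI) (Finset.mem_coe.2 h2) h1.ne h1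
    have h1 := Finset.card_union_of_disjoint hdisj
    have h2 : (c0.toFinset.filter (fun y => G.Adj (z c0) y) ∪ (I ∩ c0.toFinset)).card ≤
        c0.toFinset.card := Finset.card_le_card
      (Finset.union_subset (Finset.filter_subset _ _) Finset.inter_subset_right)
    rw [List.toFinset_card_of_nodup (hF.cyc c0 hc0).1, h1] at h2
    unfold nb
    omega
  have hnbs : ∑ c ∈ Df, nb G c (z c) + a ≤ n := by
    have hc0f : c0 ∈ Df := (hDm c0).2 hc0D
    rw [← Finset.add_sum_erase Df _ hc0f]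
    have h1 : ∑ c ∈ Df.erase c0, nb G c (z c) ≤ ∑ c ∈ Df.erase c0, c.length := by
      refine Finset.sum_le_sum fun c hc => ?_
      unfold nb
      exact (Finset.card_filter_le _ _).trans (List.toFinset_card_le c)
    have h2 : ∑ c ∈ Df, c.length ≤ ∑ c ∈ 𝓕, c.length :=
      Finset.sum_le_sum_of_subset fun c hc => (hmem c).2 (hDF c ((hDm c).1 hc))
    rw [← Finset.add_sum_erase Df _ hc0f] at h2
    omega
  have hfin : e * n ≤ e * ∑ c ∈ Df, nb G c (z c) + (k + 1) * (n + e * b) := by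
    calc e * n ≤ e * ∑ c ∈ Df, dU G Finset.univ (z c) := Nat.mul_le_mul_left _ hσ'
      _ = ∑ c ∈ Df, e * dU G Finset.univ (z c) := Finset.mul_sum _ _ _
      _ ≤ ∑ c ∈ Df, (e * nb G c (z c) + (n + e * b)) := Finset.sum_le_sum hdeg
      _ = _ := by rw [Finset.sum_add_distrib, ← Finset.mul_sum, Finset.sum_const, hDc, smul_eq_mul]
  have hfin2 := Nat.mul_le_mul_left e hnbs
  rw [mul_add] at hfin2
  have hebn : (k + 1) * (e * b) ≤ K * n := by
    rw [← hndef] at hb
    calc (k + 1) * (e * b) = K * (4 * (k + 1) * t * J * b) := by rw [he, hK]; ring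
      _ ≤ K * n := Nat.mul_le_mul_left _ hb
  have hkn : (k + 1) * n ≤ K * n := Nat.mul_le_mul_right _ hK1
  have hKn : 0 < K * n := Nat.mul_pos (by omega) (by omega)
  have h8 : 4 * K * n = 4 * (K * n) := by ring
  rw [mul_add] at hfin
  omega

end Pool.Agent.TFN
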