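import Pool.Agent.TFN.Step
import Pool.Agent.TFN.Comps
import Pool.Agent.TFB.Final

/-! At most `k` cycles that cover all vertices except a bounded number. -/

namespace Pool.Agent.TFN

open List Pool.Agent.TF82 Pool.Agent.TFC Pool.Agent.TFB

universe u

set_option linter.unusedSectionVars false
set_option linter.unusedVariables false

variable {V : Type u} [DecidableEq V]

/-- inverse density of heavy vertices -/
def eC (k t : ℕ) : ℕ := 4 * t * (k + 1) * (16 * t ^ 2) ^ 2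

/-- number of uncovered vertices -/
def bC (k t : ℕ) : ℕ := 1152 * t ^ 6 + 16 * t ^ 2 * (8 * eC k t ^ 2)

theorem dense_reduce [Fintype V] {G : SimpleGraph V} [DecidableRel G.Adj]
    (hC : ∀ I : Finset V, G.IsIndepSet (I : Set V) → ∀ v ∈ I, I.card + 1 ≤ dU G Finset.univ v)
    {k t : ℕ} (ht : 1 ≤ t) (hkt : k ≤ t)
    (hσ : ∀ I : Finset V, G.IsIndepSet (I : Set V) → I.card = k + 1 →
      Fintype.card V ≤ ∑ v ∈ I, dU G Finset.univ v)
    (hd : ∀ v, Fintype.card V ≤ t * dU G Finset.univ v)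
    (I : Finset V) (hI : G.IsIndepSet (I : Set V)) (hIc : 2 * Fintype.card V ≤ t * I.card)
    (hn : 4 * (k + 1) * t * (16 * t ^ 2) * bC k t ≤ Fintype.card V) :
    ∃ F' : List (List V), Fam G F' ∧ F'.length ≤ k ∧ (unc F').card ≤ bC k t := by
  obtain ⟨L, hM⟩ := exists_isMax G (16 * t ^ 2)
  have h1 := unc_card hC hM (B := 8 * t ^ 2) (fun y hy => comp_card hC ht hd hM hy)
  have ht2 : 1 ≤ t ^ 2 := Nat.one_le_pow _ _ ht
  have htt : t ≤ t ^ 2 := Nat.le_self_pow (by norm_num) _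
  have h7 : t ^ 4 ≤ t ^ 6 := Nat.pow_le_pow_right ht (by norm_num)
  have h9 : (2 * (8 * t ^ 2) ^ 2 + 2 * (8 * t ^ 2)) * (8 * t ^ 2) =
      1024 * t ^ 6 + 128 * t ^ 4 := by ring
  have hb : bC k t = 1152 * t ^ 6 + 16 * t ^ 2 * (8 * eC k t ^ 2) := rfl
  have he1 : 1 ≤ eC k t := by
    unfold eC
    exact Nat.succ_le_of_lt (by positivity)
  have hbpos : 1 ≤ bC k t := by
    rw [hb]
    have : 1 ≤ t ^ 6 := Nat.one_le_pow _ _ ht
    omega
  have hn0 : 0 < Fintype.card V := by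
    refine lt_of_lt_of_le ?_ hn
    positivity
  have hn2 : 16 * t * eC k t ^ 2 ≤ Fintype.card V := by
    refine le_trans ?_ hn
    rw [hb]
    calc 16 * t * eC k t ^ 2 ≤ 4 * (0 + 1) * t * (16 * 1) * (0 + 16 * 1 * (8 * eC k t ^ 2)) := by
          nlinarith [Nat.zero_le (t * eC k t ^ 2)]
      _ ≤ 4 * (k + 1) * t * (16 * t ^ 2) * (1152 * t ^ 6 + 16 * t ^ 2 * (8 * eC k t ^ 2)) := by
          gcongr <;> omega
  exact reduce (J := 16 * t ^ 2) (b0 := 1152 * t ^ 6) (e := eC k t) ht (by omega) (by omega)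
    rfl hσ hd I hI hIc hb hn hn2 hn0 hM.fam hM.len (by omega)

/-- `4 k (k + 2)` -/
def tC (k : ℕ) : ℕ := 4 * (k * (k + 2))

theorem tC_le (k : ℕ) : tC k ≤ 4 * (k + 1) ^ 2 := by
  unfold tC
  nlinarith

theorem tC_ge {k : ℕ} (hk : 1 ≤ k) : 12 ≤ tC k ∧ k ≤ tC k := by
  unfold tC
  constructor <;> nlinarith

theorem eC_le (k : ℕ) : eC k (tC k) ≤ 2 ^ 20 * (k + 1) ^ 11 := by
  have h := tC_le k
  unfold eC
  calc 4 * tC k * (k + 1) * (16 * tC k ^ 2) ^ 2
      ≤ 4 * (4 * (k + 1) ^ 2) * (k + 1) * (16 * (4 * (k + 1) ^ 2) ^ 2) ^ 2 := by gcongr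
    _ = 2 ^ 20 * (k + 1) ^ 11 := by ring

theorem bC_le (k : ℕ) : bC k (tC k) ≤ 2 ^ 52 * (k + 1) ^ 26 := by
  have h := tC_le k
  have h1 := eC_le k
  have h2 : (k + 1) ^ 12 ≤ (k + 1) ^ 26 := Nat.pow_le_pow_right (by omega) (by norm_num)
  unfold bC
  calc 1152 * tC k ^ 6 + 16 * tC k ^ 2 * (8 * eC k (tC k) ^ 2)
      ≤ 1152 * (4 * (k + 1) ^ 2) ^ 6 +
        16 * (4 * (k + 1) ^ 2) ^ 2 * (8 * (2 ^ 20 * (k + 1) ^ 11) ^ 2) := by gcongr
    _ = 4718592 * (k + 1) ^ 12 + 2 ^ 51 * (k + 1) ^ 26 := by ring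
    _ ≤ _ := by omega

theorem order_le (k : ℕ) : 4 * (k + 1) * tC k * (16 * tC k ^ 2) * bC k (tC k) ≤
    2 ^ 64 * (k + 1) ^ 33 := by
  have h := tC_le k
  have h1 := bC_le k
  calc 4 * (k + 1) * tC k * (16 * tC k ^ 2) * bC k (tC k)
      ≤ 4 * (k + 1) * (4 * (k + 1) ^ 2) * (16 * (4 * (k + 1) ^ 2) ^ 2) *
        (2 ^ 52 * (k + 1) ^ 26) := by gcongr
    _ = 2 ^ 64 * (k + 1) ^ 33 := by ring

/-- either the closure applies, or the order is small, or the graph is dense with a large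
independent set -/
theorem dense_or [Fintype V] (k : ℕ) (G : SimpleGraph V) [DecidableRel G.Adj]
    (hC : ∀ I : Finset V, G.IsIndepSet (I : Set V) → ∀ v ∈ I, I.card + 1 ≤ dU G Finset.univ v)
    (hσ : ∀ I : Finset V, G.IsIndepSet (I : Set V) → I.card = k + 1 →
      Fintype.card V ≤ ∑ v ∈ I, dU G Finset.univ v) :
    Cov G k ∨ Fintype.card V < 2 * (k * (k + 1) ^ 3) ∨
      (1 ≤ k ∧ (∀ v, Fintype.card V ≤ tC k * dU G Finset.univ v) ∧
        ∃ I : Finset V, G.IsIndepSet (I : Set V) ∧ 2 * Fintype.card V ≤ tC k * I.card) := by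
  rcases isEmpty_or_nonempty V with hV | ⟨⟨x0⟩⟩
  · exact Or.inl ⟨[], by simp, by simp, by simp, fun x => (hV.false x).elim⟩
  obtain ⟨a, ⟨I, hI, hs⟩, hmax⟩ := exists_max_nat
    (fun s => ∃ I : Finset V, G.IsIndepSet (I : Set V) ∧ I.card = s) (Fintype.card V)
    ⟨0, ∅, by simp [SimpleGraph.IsIndepSet], by simp⟩ (by
      rintro s ⟨I, hI, rfl⟩
      exact Finset.card_le_univ _)
  have ha : 1 ≤ a := hmax 1 ⟨{x0}, by simp [SimpleGraph.IsIndepSet], by simp⟩
  rcases Nat.lt_or_ge (Fintype.card V) (k * (k + 2) * a + k * (k + 1) ^ 3) with hn | hn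
  swap
  · left
    apply cover_main4 k a ha hn _ G le_rfl hC hσ
    intro J hJ hJc
    have := hmax _ ⟨J, hJ, rfl⟩
    omega
  have hk : 1 ≤ k := by
    rcases Nat.eq_zero_or_pos k with h | h
    · rw [h] at hn
      simp at hn
    · exact h
  right
  rcases Nat.lt_or_ge (Fintype.card V) (2 * (k * (k + 1) ^ 3)) with h1 | h1
  · exact Or.inl h1
  right
  have h4 : tC k * a = 2 * (2 * (k * (k + 2) * a)) := by
    unfold tC
    ring
  refine ⟨hk, ?_, I, hI, ?_⟩
  · intro v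
    have h2 := indep_deg hC I hI v
    rw [hs] at h2
    have h3 : k * (k + 2) * a ≤ k * (k + 2) * (2 * dU G Finset.univ v) :=
      Nat.mul_le_mul_left _ (by omega)
    have h4 : tC k * dU G Finset.univ v =
        2 * (k * (k + 2) * (2 * dU G Finset.univ v)) := by
      unfold tC
      ring
    omega
  · rw [hs]
    omega

theorem near [Fintype V] (k : ℕ) (G : SimpleGraph V) [DecidableRel G.Adj]
    (hC : ∀ I : Finset V, G.IsIndepSet (I : Set V) → ∀ v ∈ I, I.card + 1 ≤ dU G Finset.univ v)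
    (hσ : ∀ I : Finset V, G.IsIndepSet (I : Set V) → I.card = k + 1 →
      Fintype.card V ≤ ∑ v ∈ I, dU G Finset.univ v) :
    ∃ L1 L2 : List (List V), (∀ c ∈ L1 ++ L2, CycL G c) ∧ (L1 ++ L2).flatten.Nodup ∧
      (∀ x, x ∈ (L1 ++ L2).flatten) ∧ L1.length ≤ k ∧
      L2.flatten.length ≤ 2 ^ 64 * (k + 1) ^ 33 := by
  have small : Fintype.card V ≤ 2 ^ 64 * (k + 1) ^ 33 →
      ∃ L1 L2 : List (List V), (∀ c ∈ L1 ++ L2, CycL G c) ∧ (L1 ++ L2).flatten.Nodup ∧
      (∀ x, x ∈ (L1 ++ L2).flatten) ∧ L1.length ≤ k ∧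
      L2.flatten.length ≤ 2 ^ 64 * (k + 1) ^ 33 := by
    intro h
    obtain ⟨L2, h2, h3, h4, h5⟩ := cover_of_indep (Fintype.card V) Finset.univ
      (fun I _ hI _ v hv => hC I hI v hv) (fun I _ _ => Finset.card_le_univ I)
    exact ⟨[], L2, h3, h4, fun x => (h5 x).2 (Finset.mem_univ _), by simp,
      h4.length_le_card.trans h⟩
  rcases dense_or k G hC hσ with ⟨L, h1, h2, h3, h4⟩ | h | ⟨hk, hd, I, hI, hIc⟩
  · refine ⟨L, [], ?_, ?_, ?_, h1, by simp⟩
    · simpa using h2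
    · simpa using h3
    · simpa using h4
  · apply small
    have h6 : k * (k + 1) ^ 3 ≤ (k + 1) * (k + 1) ^ 3 := Nat.mul_le_mul_right _ (by omega)
    have h7 : (k + 1) * (k + 1) ^ 3 = (k + 1) ^ 4 := by ring
    have h8 : (k + 1) ^ 4 ≤ (k + 1) ^ 33 := Nat.pow_le_pow_right (by omega) (by norm_num)
    omega
  · rcases Nat.lt_or_ge (Fintype.card V)
      (4 * (k + 1) * tC k * (16 * tC k ^ 2) * bC k (tC k)) with h | h
    · exact small (h.le.trans (order_le k))
    · obtain ⟨F, hF, hFk, hFb⟩ := dense_reduce hC (by have := tC_ge hk; omega) (tC_ge hk).2 hσ hd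
        I hI hIc h
      obtain ⟨L, hM⟩ := exists_isMax G k
      have hle : (unc L).card ≤ (unc F).card := by
        have h1 := hM.max F hF hFk
        have h2 : ∀ L : List (List V), L.flatten.Nodup →
            (unc L).card + L.flatten.length = Fintype.card V := by
          intro L hL
          rw [← List.toFinset_card_of_nodup hL, ← Finset.card_univ,
            ← Finset.card_filter_add_card_filter_not (s := Finset.univ)
              (fun x => x ∉ L.flatten)]
          unfold unc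
          congr 2
          ext x
          simp
        have h3 := h2 L hM.fam.nod
        have h4 := h2 F hF.nod
        omega
      obtain ⟨L2, h2, h3, h4, h5⟩ := cover_of_indep (unc L).card (unc L) (cloc_unc hC hM)
        (fun I hI _ => Finset.card_le_card hI)
      refine ⟨L, L2, ?_, ?_, ?_, hM.len, ?_⟩
      · intro c hc
        rcases List.mem_append.1 hc with h | h
        · exact hM.fam.cyc c h
        · exact h3 c h
      · rw [List.flatten_append, List.nodup_append]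
        refine ⟨hM.fam.nod, h4, ?_⟩
        rintro x hx y hy rfl
        exact mem_unc.1 ((h5 x).1 hy) hx
      · intro x
        rw [List.flatten_append, List.mem_append]
        by_cases hx : x ∈ L.flatten
        · exact Or.inl hx
        · exact Or.inr ((h5 x).2 (mem_unc.2 hx))
      · have h6 : L2.flatten.length ≤ (unc L).card := by
          rw [← List.toFinset_card_of_nodup h4]
          apply Finset.card_le_card
          intro x hx
          exact (h5 x).1 (List.mem_toFinset.1 hx)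
        have h7 := bC_le k
        have h8 : (k + 1) ^ 26 ≤ (k + 1) ^ 33 := Nat.pow_le_pow_right (by omega) (by norm_num)
        omega

end Pool.Agent.TFN
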