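import Pool.Agent.TFN.NoWin

/-! N6: all cycles are large. -/

namespace Pool.Agent.TFN

open List Pool.Agent.TF82 Pool.Agent.TFC Pool.Agent.TFB

universe u

set_option linter.unusedSectionVars false
set_option linter.unusedVariables false

variable {V : Type u} [DecidableEq V]

theorem card_filter_flatten_le (p : V → Prop) [DecidablePred p] (F : List (List V)) :
    (F.flatten.toFinset.filter p).card ≤ (F.map (fun c => (c.toFinset.filter p).card)).sum := by
  induction F with
  | nil => simp
  | cons c F ih =>
    simp only [List.flatten_cons, List.toFinset_append, Finset.filter_union, List.map_cons,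
      List.sum_cons]
    exact (Finset.card_union_le _ _).trans (Nat.add_le_add_left ih _)

/-- degrees split over the cycles and the uncovered part -/
theorem deg_split [Fintype V] {G : SimpleGraph V} [DecidableRel G.Adj] {F : List (List V)}
    (hF : Fam G F) (x : V) :
    dU G Finset.univ x ≤ (F.map (fun c => nb G c x)).sum + (unc F).card := by
  have h1 : (Finset.univ.filter (fun y => G.Adj x y)) ⊆
      (F.flatten.toFinset.filter (fun y => G.Adj x y)) ∪ unc F := by
    intro y hy
    rw [Finset.mem_filter] at hy
    rw [Finset.mem_union, Finset.mem_filter, List.mem_toFinset, mem_unc]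
    by_cases h : y ∈ F.flatten
    · exact Or.inl ⟨h, hy.2⟩
    · exact Or.inr h
  have h2 := (Finset.card_le_card h1).trans (Finset.card_union_le _ _)
  exact h2.trans (Nat.add_le_add_right (card_filter_flatten_le _ F) _)

theorem nm_large [Fintype V] {G : SimpleGraph V} [DecidableRel G.Adj] {F : List (List V)}
    {Lo t b : ℕ} (hF : Fam G F) (hN : NoMerge G F Lo) (ht : 1 ≤ t)
    (hd : ∀ v, Fintype.card V ≤ t * dU G Finset.univ v) (hunc : (unc F).card ≤ b)
    (hL : 4 * t + (4 * t) ^ 2 ≤ Lo) {c : List V} (hc : c ∈ F) :
    Fintype.card V ≤ 2 * t * (c.length + b) := by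
  classical
  by_contra hcon
  push Not at hcon
  have hlen := nm_len hF hN hc
  have hcn : c.Nodup := (hF.cyc c hc).1
  -- the window
  obtain ⟨W, hW⟩ : ∃ W : List V, W = c.take (4 * t) := ⟨_, rfl⟩
  obtain ⟨B, hB⟩ : ∃ B : List V, B = c.drop (4 * t) := ⟨_, rfl⟩
  have hcWB : c = [] ++ (W ++ B) := by rw [hW, hB]; simp
  have hWl : W.length = 4 * t := by
    rw [hW, List.length_take]
    exact Nat.min_eq_left (by nlinarith)
  have hWn : W.Nodup := by
    rw [hW]; exact (List.take_sublist _ _).nodup hcn
  have hX : W.toFinset.card = 4 * t := by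
    rw [List.toFinset_card_of_nodup hWn, hWl]
  -- decomposition of the list
  have hperm : F.Perm (c :: F.erase c) := List.perm_cons_erase hc
  have hsum : ∀ x, (F.map (fun d => nb G d x)).sum =
      nb G c x + ((F.erase c).map (fun d => nb G d x)).sum := by
    intro x
    rw [(hperm.map _).sum_eq]; simp
  have hFn : F.Nodup := by
    have h2 := (List.nodup_flatten.1 hF.nod).2
    refine h2.imp_of_mem ?_
    intro a b ha hb hab heq
    subst heq
    have h3 := (hF.cyc a ha).2.1
    rcases a with _ | ⟨z, a⟩
    · simp at h3
    · exact hab (List.mem_cons_self) (List.mem_cons_self)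
  -- every vertex of the window
  have hx1 : ∀ x, Fintype.card V < 2 * t * ((F.erase c).map (fun d => nb G d x)).sum := by
    intro x
    have h1 := hd x
    have h2 := deg_split (G := G) hF x
    rw [hsum] at h2
    have h3 : nb G c x ≤ c.length := by
      unfold nb
      exact (Finset.card_filter_le _ _).trans (List.toFinset_card_le _)
    have h4 : t * dU G Finset.univ x ≤
        t * (c.length + ((F.erase c).map (fun d => nb G d x)).sum + b) := by
      apply Nat.mul_le_mul_left
      omega
    nlinarith
  have hx2 : 4 * t * (Fintype.card V + 1) ≤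
      2 * t * ∑ x ∈ W.toFinset, ((F.erase c).map (fun d => nb G d x)).sum := by
    rw [Finset.mul_sum, ← hX, ← smul_eq_mul, ← Finset.sum_const]
    apply Finset.sum_le_sum
    intro x hx
    exact hx1 x
  -- exchange the sums
  have hswap : ∀ L : List (List V),
      ∑ x ∈ W.toFinset, (L.map (fun d => nb G d x)).sum =
        (L.map (fun d => ∑ x ∈ W.toFinset, nb G d x)).sum := by
    intro L
    induction L with
    | nil => simp
    | cons d L ih => simp [Finset.sum_add_distrib, ih]
  have hle : ∀ L : List (List V), (∀ d ∈ L, d ∈ F ∧ c ≠ d) →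
      (L.map (fun d => ∑ x ∈ W.toFinset, nb G d x)).sum ≤ 2 * L.flatten.length := by
    intro L
    induction L with
    | nil => intro _; simp
    | cons d L ih =>
      intro h
      have h1 := ih (fun d' hd' => h d' (List.mem_cons_of_mem _ hd'))
      have h2 := no_window (w := 4 * t) (q := 4 * t) hF hN hc (h d List.mem_cons_self).1
        (h d List.mem_cons_self).2 hcWB hWl.le W.toFinset (fun x hx => List.mem_toFinset.1 hx)
        hX.le hL
      rw [List.map_cons, List.sum_cons, List.flatten_cons, List.length_append]
      omega
  have h3 := hle (F.erase c) (by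
    intro d hd'
    refine ⟨List.mem_of_mem_erase hd', ?_⟩
    intro h
    subst h
    exact hFn.not_mem_erase hd')
  have h4 : (F.erase c).flatten.length ≤ Fintype.card V := by
    have h5 : F.flatten.length ≤ Fintype.card V := hF.nod.length_le_card
    have h6 : F.flatten.length = (c :: F.erase c).flatten.length := by
      exact hperm.flatten.length_eq
    rw [List.flatten_cons, List.length_append] at h6
    omega
  rw [hswap] at hx2
  have h5 : 2 * t * ((F.erase c).map (fun d => ∑ x ∈ W.toFinset, nb G d x)).sum ≤
      2 * t * (2 * Fintype.card V) := Nat.mul_le_mul_left _ (by omega)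
  nlinarith

end Pool.Agent.TFN
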