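import Pool.Agent.TFN.Defs

/-! N1: merging two cycles. -/

namespace Pool.Agent.TFN

open List Pool.Agent.TF82 Pool.Agent.TFC Pool.Agent.TFB

universe u

set_option linter.unusedSectionVars false
set_option linter.unusedVariables false

variable {V : Type u} [DecidableEq V]

/-- two chains joined by two edges form a cycle -/
theorem merge_cyc {G : SimpleGraph V} {P R : List V} {x x' y y' : V} (hP : Seg G P x' x)
    (hR : Seg G R y y') (hxy : G.Adj x y) (hxy' : G.Adj x' y') (hn : (P ++ R).Nodup)
    (h3 : 3 ≤ P.length + R.length) : CycL G (P ++ R) := by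
  have h := hP.append hR hxy
  refine ⟨hn, ?_, h.ch, ?_⟩
  · rw [List.length_append]
    exact h3
  · intro a ha b hb
    rw [h.lt] at ha
    rw [h.hd] at hb
    simp only [Option.mem_def, Option.some.injEq] at ha hb
    rw [← ha, ← hb]
    exact hxy'.symm

theorem flatten_erase {F : List (List V)} {c : List V} (hc : c ∈ F) :
    F.flatten.Perm (c ++ (F.erase c).flatten) := by
  have h := List.Perm.flatten (List.perm_cons_erase hc)
  rwa [List.flatten_cons] at h

theorem nm_len {G : SimpleGraph V} {F : List (List V)} {Lo : ℕ} (hF : Fam G F)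
    (hN : NoMerge G F Lo) {c : List V} (hc : c ∈ F) : Lo < c.length := by
  have hp := flatten_erase hc
  have hnod : (c ++ (F.erase c).flatten).Nodup := hp.nodup_iff.1 hF.nod
  have h1 := hN (F.erase c) ⟨fun d hd => hF.cyc d (List.mem_of_mem_erase hd), (List.nodup_append'.1 hnod).2.1⟩ (by
    rw [List.length_erase_of_mem hc]
    have := List.length_pos_of_mem hc
    omega)
  rw [hp.length_eq, List.length_append] at h1
  omega

theorem nm_two {G : SimpleGraph V} {F : List (List V)} {Lo : ℕ} (hF : Fam G F)
    (hN : NoMerge G F Lo) {c c' : List V} (hc : c ∈ F) (hc' : c' ∈ F) (hne : c ≠ c')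
    {N : List V} (hNc : CycL G N) (hNm : ∀ x ∈ N, x ∈ c ∨ x ∈ c') :
    N.length + Lo < c.length + c'.length := by
  have hc'2 : c' ∈ F.erase c := (List.mem_erase_of_ne (Ne.symm hne)).2 hc'
  have hp : F.flatten.Perm (c ++ (c' ++ ((F.erase c).erase c').flatten)) :=
    (flatten_erase hc).trans ((flatten_erase hc'2).append_left c)
  have hnod : (c ++ (c' ++ ((F.erase c).erase c').flatten)).Nodup := hp.nodup_iff.1 hF.nod
  rw [List.nodup_append'] at hnod
  obtain ⟨-, hn2, hd1⟩ := hnod
  rw [List.nodup_append'] at hn2
  obtain ⟨-, hn3, hd2⟩ := hn2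
  have h1 := hN (N :: (F.erase c).erase c') ⟨?_, ?_⟩ (by
    rw [List.length_cons, List.length_erase_of_mem hc'2, List.length_erase_of_mem hc]
    have h2 := List.length_pos_of_mem hc'2
    rw [List.length_erase_of_mem hc] at h2
    omega)
  · rw [hp.length_eq, List.flatten_cons, List.length_append, List.length_append, List.length_append] at h1
    omega
  · intro d hd
    rcases List.mem_cons.1 hd with rfl | hd
    · exact hNc
    · exact hF.cyc d (List.mem_of_mem_erase (List.mem_of_mem_erase hd))
  · rw [List.flatten_cons, List.nodup_append']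
    refine ⟨hNc.1, hn3, ?_⟩
    intro x hx hx2
    rcases hNm x hx with h | h
    · exact hd1 h (List.mem_append_right _ hx2)
    · exact hd2 h hx2

end Pool.Agent.TFN
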