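import Pool.Agent.TFN.Contra

/-! N9: reducing the number of cycles to k. -/

namespace Pool.Agent.TFN

open List Pool.Agent.TF82 Pool.Agent.TFC Pool.Agent.TFB

universe u

set_option linter.unusedSectionVars false
set_option linter.unusedVariables false

variable {V : Type u} [DecidableEq V]

theorem step_unc_card [Fintype V] {G : SimpleGraph V} {L : List (List V)} (h : Fam G L) :
    (unc L).card + L.flatten.length = Fintype.card V := by
  have h1 : unc L = (L.flatten.toFinset)ᶜ := by
    ext x
    simp [unc]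
  have h2 := Finset.card_le_univ L.flatten.toFinset
  rw [h1, Finset.card_compl]
  rw [List.toFinset_card_of_nodup h.nod] at h2 ⊢
  omega

theorem reduce [Fintype V] {G : SimpleGraph V} [DecidableRel G.Adj]
    {k t J b b0 e : ℕ} (ht : 1 ≤ t) (hJ : 1 ≤ J) (hkJ : k ≤ J)
    (he : e = 4 * t * (k + 1) * J ^ 2)
    (hσ : ∀ I : Finset V, G.IsIndepSet (I : Set V) → I.card = k + 1 →
      Fintype.card V ≤ ∑ v ∈ I, dU G Finset.univ v)
    (hd : ∀ v, Fintype.card V ≤ t * dU G Finset.univ v)
    (I : Finset V) (hI : G.IsIndepSet (I : Set V)) (hIc : 2 * Fintype.card V ≤ t * I.card)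
    (hb : b = b0 + J * (8 * e ^ 2)) (hbn : 4 * (k + 1) * t * J * b ≤ Fintype.card V)
    (hn : 16 * t * e ^ 2 ≤ Fintype.card V) (hn0 : 0 < Fintype.card V)
    {F : List (List V)} (hF : Fam G F) (hFJ : F.length ≤ J) (hunc : (unc F).card ≤ b0) :
    ∃ F' : List (List V), Fam G F' ∧ F'.length ≤ k ∧ (unc F').card ≤ b := by
  have key : ∀ m : ℕ, ∀ F : List (List V), F.length ≤ m → Fam G F → F.length ≤ J →
      (unc F).card ≤ b0 + (J - F.length) * (8 * e ^ 2) →
      ∃ F' : List (List V), Fam G F' ∧ F'.length ≤ k ∧ (unc F').card ≤ b := by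
    intro m
    induction m with
    | zero =>
      intro F hm hF hFJ hu
      refine ⟨F, hF, by omega, ?_⟩
      rw [hb]
      exact hu.trans (Nat.add_le_add_left (Nat.mul_le_mul_right _ (Nat.sub_le _ _)) _)
    | succ m ih =>
      intro F hm hF hFJ hu
      have hu' : (unc F).card ≤ b := by
        rw [hb]
        exact hu.trans (Nat.add_le_add_left (Nat.mul_le_mul_right _ (Nat.sub_le _ _)) _)
      rcases Nat.lt_or_ge k F.length with hk | hk
      · have h1 : ¬ NoMerge G F (8 * e ^ 2) := fun hN =>
          contra ht hJ he hσ hd I hI hIc hF hN hk hFJ hu' hbn hn hn0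
        unfold NoMerge at h1
        push Not at h1
        obtain ⟨F', hF', hl, hlo⟩ := h1
        refine ih F' (by omega) hF' (by omega) ?_
        have h2 := step_unc_card hF
        have h3 := step_unc_card hF'
        have h4 : (unc F').card ≤ (unc F).card + 8 * e ^ 2 := by omega
        have h5 : J - F.length + 1 ≤ J - F'.length := by omega
        calc (unc F').card ≤ (unc F).card + 8 * e ^ 2 := h4
          _ ≤ b0 + (J - F.length) * (8 * e ^ 2) + 8 * e ^ 2 := Nat.add_le_add_right hu _
          _ = b0 + (J - F.length + 1) * (8 * e ^ 2) := by ring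
          _ ≤ b0 + (J - F'.length) * (8 * e ^ 2) :=
            Nat.add_le_add_left (Nat.mul_le_mul_right _ h5) _
      · exact ⟨F, hF, hk, hu'⟩
  exact key F.length F le_rfl hF hFJ (hunc.trans (Nat.le_add_right _ _))

end Pool.Agent.TFN
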